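import Pool.Agent.Q184.TP.Ops

set_option autoImplicit false
set_option linter.unusedSectionVars false

/-!
# Pages with exponents that depend on the sheet

The `n`-fold cyclic branched cover of a pretzel link with three columns is a sum of `n` columns over
three sheets: columns and sheets change places.
-/

namespace Pool.Agent.Q184.PZ

open Pool.Agent.Y479.LS Pool.Agent.Q184.TP

theorem i21' (k : ZMod 3) : k + 2 + 1 = k := i21 k
theorem m0 (k : ZMod 3) : -1 - (-1 - k) = k := by ring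
theorem m1 (k : ZMod 3) : -1 - k + 1 = -k := by ring
theorem m2 (k : ZMod 3) : -1 - -k = k + 2 := by revert k; decide

theorem hat_hat {G : Type*} [Group G] (a : ZMod 3 → G) : hat (hat a) = a := by
  funext j
  show ((a (-1 - (-1 - j)))⁻¹)⁻¹ = a j
  rw [inv_inv, m0]

section sem

variable {X : Type*} [LinearOrder X] {κ a b c : ZMod 3 → Aut X}

/-- conjugation by powers of `κ` which depend on the sheet -/
def shl {G : Type*} [Group G] (κ : ZMod 3 → G) (l : ZMod 3 → ℕ) (b : ZMod 3 → G) : ZMod 3 → G :=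
  fun i => κ i ^ l i * b i * (κ (i + 1) ^ l (i + 1))⁻¹

theorem shl_cyc {G : Type*} [Group G] {κ b : ZMod 3 → G} (l : ZMod 3 → ℕ) (h : Cyc b) :
    Cyc (shl κ l b) := by
  intro i
  show κ i ^ l i * b i * (κ (i + 1) ^ l (i + 1))⁻¹ * (κ (i + 1) ^ l (i + 1) * b (i + 1) *
    (κ (i + 1 + 1) ^ l (i + 1 + 1))⁻¹) * (κ (i + 2) ^ l (i + 2) * b (i + 2) *
      (κ (i + 2 + 1) ^ l (i + 2 + 1))⁻¹) = 1
  rw [i11, i21]
  have h1 := h i
  have : κ i ^ l i * b i * (κ (i + 1) ^ l (i + 1))⁻¹ * (κ (i + 1) ^ l (i + 1) * b (i + 1) *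
      (κ (i + 2) ^ l (i + 2))⁻¹) * (κ (i + 2) ^ l (i + 2) * b (i + 2) * (κ i ^ l i)⁻¹) =
      κ i ^ l i * (b i * b (i + 1) * b (i + 2)) * (κ i ^ l i)⁻¹ := by group
  rw [this, h1, mul_one, mul_inv_cancel]

theorem shl_core (l : ZMod 3 → ℕ) (i : ZMod 3) (p r : X) (h1 : κ i r ≤ r) (h2 : p ≤ κ (i + 1) p)
    (h3 : a i p ≤ r) (h4 : r ≤ shl κ l a i p) :
    a i p = r ∧ shl κ l a i p = r ∧ (κ i ^ l i) r = r ∧ (κ (i + 1) ^ l (i + 1)) p = p := by
  have hs : shl κ l a i p = (κ i ^ l i) (a i ((κ (i + 1) ^ l (i + 1))⁻¹ p)) := rfl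
  rw [hs] at h4 ⊢
  have g1 : (κ (i + 1) ^ l (i + 1))⁻¹ p ≤ p := (inv_le_iff _ _ _).mpr (le_pow_iff _ h2 _)
  have g2 : a i ((κ (i + 1) ^ l (i + 1))⁻¹ p) ≤ r := ((Aut.le_iff _).mpr g1).trans h3
  have g3 : (κ i ^ l i) r ≤ r := pow_le_iff _ h1 _
  have g4 : (κ i ^ l i) (a i ((κ (i + 1) ^ l (i + 1))⁻¹ p)) ≤ (κ i ^ l i) r := (Aut.le_iff _).mpr g2
  have e1 : (κ i ^ l i) r = r := le_antisymm g3 (h4.trans g4)
  have e2 : a i ((κ (i + 1) ^ l (i + 1))⁻¹ p) = r := by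
    refine le_antisymm g2 ?_
    rw [← Aut.le_iff (κ i ^ l i), e1]
    exact h4
  have e3 : a i p = r := le_antisymm h3 (by rw [← e2]; exact (Aut.le_iff _).mpr g1)
  have e4 : (κ (i + 1) ^ l (i + 1))⁻¹ p = p := by rw [← Aut.inj (a i), e2, e3]
  have e5 : (κ (i + 1) ^ l (i + 1)) p = p := by
    rw [← Aut.inj (κ (i + 1) ^ l (i + 1))⁻¹, Aut.inv_self, e4]
  exact ⟨e3, by rw [e2, e1], e1, e5⟩

theorem fix_of_le {f : Aut X} {r : X} (h : f r ≤ r) {n : ℕ} (hn : 1 ≤ n) (e : (f ^ n) r = r) :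
    f r = r := by
  obtain ⟨m, rfl⟩ : ∃ m, n = m + 1 := ⟨n - 1, by omega⟩
  refine le_antisymm h ?_
  have : (f ^ m) (f r) ≤ f r := pow_le_iff _ ((Aut.le_iff _).mpr h) m
  rw [pow_succ, Aut.mul_apply] at e
  rwa [e] at this

theorem fix_of_ge {f : Aut X} {r : X} (h : r ≤ f r) {n : ℕ} (hn : 1 ≤ n) (e : (f ^ n) r = r) :
    f r = r := by
  obtain ⟨m, rfl⟩ : ∃ m, n = m + 1 := ⟨n - 1, by omega⟩
  refine le_antisymm ?_ h
  have : f r ≤ (f ^ m) (f r) := le_pow_iff _ ((Aut.le_iff _).mpr h) m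
  rw [pow_succ, Aut.mul_apply] at e
  rwa [e] at this

theorem shl_P1 (l : ZMod 3 → ℕ) (hl : ∀ i, 1 ≤ l i) : P1 κ a (shl κ l a) := by
  intro i p r h1 h2 h3 h4
  obtain ⟨e1, e2, e3, e4⟩ := shl_core l i p r h1 h2 h3 h4
  exact ⟨e1, e2, fix_of_le h1 (hl _) e3, fix_of_ge h2 (hl _) e4⟩

theorem shl_W1 (l : ZMod 3 → ℕ) : W1 κ a (shl κ l a) := by
  intro i p r h1 h2 h3 h4
  obtain ⟨e1, e2, -, -⟩ := shl_core l i p r h1 h2 h3 h4
  exact ⟨e1, e2⟩

theorem shl_dual (l : ZMod 3 → ℕ) : dualF (shl κ l a) = shl (dualF κ) l (dualF a) := by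
  funext i
  show Aut.dual (κ i ^ l i * a i * (κ (i + 1) ^ l (i + 1))⁻¹) =
    (Aut.dual (κ i)) ^ l i * Aut.dual (a i) * ((Aut.dual (κ (i + 1))) ^ l (i + 1))⁻¹
  rw [map_mul, map_mul, map_inv, map_pow, map_pow]

/-- a positive twist region -/
theorem shl_P (l : ZMod 3 → ℕ) (hl : ∀ i, 1 ≤ l i) : P κ a (shl κ l a) := by
  refine ⟨shl_P1 l hl, ?_⟩
  have h := shl_P1 (κ := dualF κ) (a := dualF a) l hl
  rw [← shl_dual] at h
  exact P1.undual h

/-- a nonnegative twist region -/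
theorem shl_W (l : ZMod 3 → ℕ) : W κ a (shl κ l a) := by
  refine ⟨shl_W1 l, ?_⟩
  have h := shl_W1 (κ := dualF κ) (a := dualF a) l
  rw [← shl_dual] at h
  exact h

/-- the loop around the left side of a column with `l k` full twists over the band `k` -/
def side {G : Type*} [Group G] (l : ZMod 3 → ℕ) (a b : ZMod 3 → G) : ZMod 3 → G :=
  fun k => (b k * (a k)⁻¹) ^ l k * (((a (k + 2))⁻¹ * b (k + 2)) ^ l (k + 2))⁻¹

/-- **A column.** -/
theorem column (l : ZMod 3 → ℕ) (hl : ∀ i, 1 ≤ l i) {α β : ZMod 3 → Aut X} (ha : Cyc α)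
    (hb : Cyc β) : P (side l α β) α β ∧ Cyc (low (side l α β) α) := by
  set κ0 : ZMod 3 → Aut X := rk α β with hκ0
  have hlow : low κ0 (hat α) = hat β := low_rk
  have h1 : P κ0 (hat α) (shl κ0 (fun j => l (-1 - j)) (hat α)) := shl_P _ fun i => hl _
  have hc : Cyc (shl κ0 (fun j => l (-1 - j)) (hat α)) := shl_cyc _ (hat_cyc ha)
  have h2 := h1.turn (hat_cyc ha) hc (by rw [hlow]; exact hat_cyc hb)
  rw [hlow, hat_hat, hat_hat] at h2
  have hk : rk (hat α) (shl κ0 (fun j => l (-1 - j)) (hat α)) = side l α β := by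
    funext k
    show hat (hat α) k * (hat (shl κ0 (fun j => l (-1 - j)) (hat α)) k)⁻¹ = side l α β k
    rw [hat_hat]
    show α k * ((κ0 (-1 - k) ^ l (-1 - (-1 - k)) * (α (-1 - (-1 - k)))⁻¹ *
      (κ0 (-1 - k + 1) ^ l (-1 - (-1 - k + 1)))⁻¹)⁻¹)⁻¹ = _
    have k1 : κ0 (-1 - k) = (α k)⁻¹ * β k := by
      show (α (-1 - (-1 - k)))⁻¹ * ((β (-1 - (-1 - k)))⁻¹)⁻¹ = _
      rw [inv_inv, m0]
    have k2 : κ0 (-k) = (α (k + 2))⁻¹ * β (k + 2) := by
      show (α (-1 - -k))⁻¹ * ((β (-1 - -k))⁻¹)⁻¹ = _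
      rw [inv_inv, m2]
    rw [m1, m0, k1, k2, m2, inv_inv]
    unfold side
    have e : ∀ n : ℕ, α k * ((α k)⁻¹ * β k) ^ n * (α k)⁻¹ = (β k * (α k)⁻¹) ^ n := by
      intro n
      rw [← conj_pow]
      congr 1
      group
    rw [← e]
    group
  rw [hk] at h2
  refine ⟨h2, ?_⟩
  rw [← hk]
  have h3 : low (rk (hat α) (shl κ0 (fun j => l (-1 - j)) (hat α))) (hat (hat α)) =
      hat (shl κ0 (fun j => l (-1 - j)) (hat α)) := low_rk
  rw [hat_hat] at h3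
  rw [h3]
  exact hat_cyc hc

/-- **The chain of columns.** -/
theorem core (n : ℕ) (hn : 0 < n) (l : ZMod 3 → ℕ) (hl : ∀ i, 1 ≤ l i) (N : ZMod 3 → ℕ)
    (κ : ZMod 3 → Aut X) (α : ℕ → ZMod 3 → Aut X) (h0 : α 0 = 1) (hc : ∀ i, Cyc (α i))
    (hκ : ∀ i, side l (α i) (α (i + 1)) = κ) (hN : shl κ N (α n) = 1) :
    (∀ k, κ k = 1) ∧ ∀ i, α i = 1 := by
  have page : ∀ i, P κ (α i) (α (i + 1)) ∧ Cyc (low κ (α i)) := by
    intro i
    have h := column l hl (hc i) (hc (i + 1))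
    rw [hκ i] at h
    exact h
  have comp : ∀ i, P κ (α 0) (α (i + 1)) := by
    intro i
    induction i with
    | zero => exact (page 0).1
    | succ i ih => exact ih.trans_weak (page (i + 1)).1.weak
  obtain ⟨m, rfl⟩ : ∃ m, n = m + 1 := ⟨n - 1, by omega⟩
  have h1 : P κ (α 0) (shl κ N (α (m + 1))) := (comp m).trans_weak (shl_W N)
  rw [hN, ← h0] at h1
  have hk : ∀ k, κ k = 1 := fun k => Aut.ext' fun p => close h1 (hc 0) (page 0).2 k p
  refine ⟨hk, ?_⟩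
  have step : ∀ i, α (i + 1) = α i := by
    intro i
    funext k
    refine Aut.ext' fun p => ?_
    have fx : ∀ (j : ZMod 3) (x : X), κ j x = x := fun j x => by rw [hk j]; rfl
    rcases le_total (α i k p) (α (i + 1) k p) with h | h
    · exact ((page i).1.1 k p (α (i + 1) k p) (fx _ _).le (fx _ _).ge h le_rfl).1.symm
    · exact ((page i).1.2 k p (α (i + 1) k p) (fx _ _).ge (fx _ _).le h le_rfl).1.symm
  intro i
  induction i with
  | zero => exact h0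
  | succ i ih => rw [step i, ih]

end sem

end Pool.Agent.Q184.PZ
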