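import Pool.Agent.Q184.PZ.Core

set_option autoImplicit false
set_option linter.unusedSectionVars false

/-!
# From the group of the link to order automorphisms
-/

namespace Pool.Agent.Q184.PZ

open Pool.Agent.Y479.LS Pool.Agent.Q184.TP

variable {G : Type*} [Group G]

/-- the parallel curve of the component `k` -/
def lon (l : ZMod 3 → ℕ) (a : ZMod 3 → G) (k : ZMod 3) : G :=
  (a (k + 2) * (a k)⁻¹) ^ l (k + 2) * ((a k * (a (k + 1))⁻¹) ^ l k)⁻¹

theorem pow_conj (s x : G) (i m : ℕ) : (s ^ i * x * (s ^ i)⁻¹) ^ m = s ^ i * x ^ m * (s ^ i)⁻¹ := by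
  rw [conj_pow]

/-- The curve is the left side of the column number `i`. -/
theorem lon_side (l : ZMod 3 → ℕ) (a : ZMod 3 → G) (k : ZMod 3) (i : ℕ)
    (hcomm : a k * lon l a k = lon l a k * a k) :
    (a k ^ (i + 1) * (a (k + 1) ^ (i + 1))⁻¹ * (a k ^ i * (a (k + 1) ^ i)⁻¹)⁻¹) ^ l k *
      (((a (k + 2) ^ i * (a k ^ i)⁻¹)⁻¹ * (a (k + 2) ^ (i + 1) * (a k ^ (i + 1))⁻¹)) ^ l (k + 2))⁻¹ =
      (lon l a k)⁻¹ := by
  have e1 : a k ^ (i + 1) * (a (k + 1) ^ (i + 1))⁻¹ * (a k ^ i * (a (k + 1) ^ i)⁻¹)⁻¹ =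
      a k ^ i * (a k * (a (k + 1))⁻¹) * (a k ^ i)⁻¹ := by
    rw [pow_succ, pow_succ]
    group
  have e2 : (a (k + 2) ^ i * (a k ^ i)⁻¹)⁻¹ * (a (k + 2) ^ (i + 1) * (a k ^ (i + 1))⁻¹) =
      a k ^ i * (a (k + 2) * (a k)⁻¹) * (a k ^ i)⁻¹ := by
    rw [pow_succ, pow_succ]
    group
  rw [e1, e2, pow_conj, pow_conj]
  have h1 : Commute (a k) (lon l a k) := hcomm
  have h2 : a k ^ i * (lon l a k)⁻¹ * (a k ^ i)⁻¹ = (lon l a k)⁻¹ := by
    rw [((h1.inv_right).pow_left i).eq]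
    group
  rw [← h2]
  unfold lon
  group

section ker

variable {n : ℕ} (d : G →* Multiplicative (ZMod n))

theorem conj_val (s : G) (x : d.ker) : ((MulAut.conjNormal s x : d.ker) : G) = s * x * s⁻¹ := rfl

variable {X : Type*} [LinearOrder X] (ψ : d.ker →* Aut X)

/-- the elements all of whose conjugates by powers of `s` act trivially -/
def triv (s : G) : Subgroup d.ker where
  carrier := {x | ∀ z : ℤ, ψ (MulAut.conjNormal (s ^ z) x) = 1}
  mul_mem' := by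
    intro x y hx hy z
    rw [map_mul, map_mul, hx z, hy z, one_mul]
  one_mem' := by
    intro z
    rw [map_one, map_one]
  inv_mem' := by
    intro x hx z
    rw [map_inv, map_inv, hx z, inv_one]

theorem triv_conj (s : G) {x : d.ker} (hx : x ∈ triv d ψ s) (m : ℤ) :
    MulAut.conjNormal (s ^ m) x ∈ triv d ψ s := by
  intro z
  rw [← MulAut.mul_apply, ← map_mul, ← zpow_add]
  exact hx (z + m)

/-- the subgroup generated by these elements and `s` -/
def trivS (s : G) : Subgroup G where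
  carrier := {g | ∃ x ∈ triv d ψ s, ∃ m : ℤ, g = x * s ^ m}
  mul_mem' := by
    rintro _ _ ⟨x, hx, m, rfl⟩ ⟨y, hy, k, rfl⟩
    refine ⟨x * MulAut.conjNormal (s ^ m) y, mul_mem hx (triv_conj d ψ s hy m), m + k, ?_⟩
    rw [Subgroup.coe_mul, conj_val, zpow_add]
    group
  one_mem' := ⟨1, one_mem _, 0, by simp⟩
  inv_mem' := by
    rintro _ ⟨x, hx, m, rfl⟩
    refine ⟨MulAut.conjNormal (s ^ (-m)) x⁻¹, triv_conj d ψ s (inv_mem hx) (-m), -m, ?_⟩
    rw [conj_val, Subgroup.coe_inv]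
    group

/-- **The transfer.** -/
theorem hom_trivial (hn : 0 < n) (l : ZMod 3 → ℕ) (hl : ∀ k, 1 ≤ l k) (N : ZMod 3 → ℕ)
    (a : ZMod 3 → G) (hcomm : ∀ k, a k * lon l a k = lon l a k * a k)
    (hpow : ∀ k, a k ^ n = lon l a k ^ N k)
    (hgen : ∀ M : Subgroup G, (∀ k, a k ∈ M) → M = ⊤)
    (da : ∀ k, d (a k) = Multiplicative.ofAdd 1) (g : d.ker) : ψ g = 1 := by
  have dA : ∀ (i : ℕ) (k j : ZMod 3), a k ^ i * (a j ^ i)⁻¹ ∈ d.ker := by
    intro i k j
    show d _ = 1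
    rw [map_mul, map_inv, map_pow, map_pow, da, da, mul_inv_cancel]
  have dL : ∀ k, lon l a k ∈ d.ker := by
    intro k
    show d _ = 1
    unfold lon
    rw [map_mul, map_inv, map_pow, map_pow, map_mul, map_mul, map_inv, map_inv, da, da, da,
      mul_inv_cancel, one_pow, one_pow, inv_one, mul_one]
  have dn : ∀ k, a k ^ n ∈ d.ker := by
    intro k
    rw [hpow]
    exact pow_mem (dL k) _
  let A : ℕ → ZMod 3 → ZMod 3 → d.ker := fun i k j => ⟨a k ^ i * (a j ^ i)⁻¹, dA i k j⟩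
  let L : ZMod 3 → d.ker := fun k => ⟨lon l a k, dL k⟩
  have hL : ∀ k, ((L k : d.ker) : G) = lon l a k := fun _ => rfl
  have hA : ∀ i k j, ((A i k j : d.ker) : G) = a k ^ i * (a j ^ i)⁻¹ := fun _ _ _ => rfl
  let κ : ZMod 3 → Aut X := fun k => ψ ((L k)⁻¹)
  let α : ℕ → ZMod 3 → Aut X := fun i k => ψ (A i k (k + 1))
  have h0 : α 0 = 1 := by
    funext k
    show ψ (A 0 k (k + 1)) = 1
    have : A 0 k (k + 1) = 1 := Subtype.ext (by rw [hA]; simp)
    rw [this, map_one]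
  have hc : ∀ i, Cyc (α i) := by
    intro i k
    show ψ (A i k (k + 1)) * ψ (A i (k + 1) (k + 1 + 1)) * ψ (A i (k + 2) (k + 2 + 1)) = 1
    rw [i11, i21, ← map_mul, ← map_mul]
    have : A i k (k + 1) * A i (k + 1) (k + 2) * A i (k + 2) k = 1 := Subtype.ext (by
      rw [Subgroup.coe_mul, Subgroup.coe_mul, hA, hA, hA]
      simp)
    rw [this, map_one]
  have hκ : ∀ i, side l (α i) (α (i + 1)) = κ := by
    intro i
    funext k
    show (ψ (A (i + 1) k (k + 1)) * (ψ (A i k (k + 1)))⁻¹) ^ l k *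
      (((ψ (A i (k + 2) (k + 2 + 1)))⁻¹ * ψ (A (i + 1) (k + 2) (k + 2 + 1))) ^ l (k + 2))⁻¹ =
      ψ ((L k)⁻¹)
    rw [i21, ← map_inv, ← map_inv, ← map_mul, ← map_mul, ← map_pow, ← map_pow, ← map_inv, ← map_mul]
    congr 1
    refine Subtype.ext ?_
    rw [Subgroup.coe_inv, hL, ← lon_side l a k i (hcomm k)]
    rfl
  have hN : shl κ N (α n) = 1 := by
    funext k
    show (ψ ((L k)⁻¹)) ^ N k * ψ (A n k (k + 1)) * ((ψ ((L (k + 1))⁻¹)) ^ N (k + 1))⁻¹ = 1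
    rw [← map_pow, ← map_pow, ← map_inv, ← map_mul, ← map_mul]
    have : (L k)⁻¹ ^ N k * A n k (k + 1) * ((L (k + 1))⁻¹ ^ N (k + 1))⁻¹ = 1 := Subtype.ext (by
      rw [Subgroup.coe_mul, Subgroup.coe_mul, Subgroup.coe_pow, Subgroup.coe_inv,
        Subgroup.coe_inv, Subgroup.coe_pow, Subgroup.coe_inv, hA, hL, hL, hpow, hpow]
      simp)
    rw [this, map_one]
  obtain ⟨k1, k2⟩ := core n hn l hl N κ α h0 hc hκ hN
  have k3 : ∀ i k, ψ (A i k (k + 1)) = 1 := fun i k => congrFun (k2 i) k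
  have k4 : ∀ k, ψ (L k) = 1 := by
    intro k
    have h := k1 k
    change ψ ((L k)⁻¹) = 1 at h
    rwa [map_inv, inv_eq_one] at h
  set s : G := a 0 with hs
  -- the elements `a k ^ i * s ^ (-i)`
  have k5 : ∀ i k, ψ (A i k 0) = 1 := by
    intro i k
    have hk : k = 0 ∨ k = 1 ∨ k = 2 := by revert k; decide
    rcases hk with rfl | rfl | rfl
    · have : A i 0 0 = 1 := Subtype.ext (by rw [hA]; simp)
      rw [this, map_one]
    · have : A i 1 0 = (A i 0 (0 + 1))⁻¹ := Subtype.ext (by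
        rw [Subgroup.coe_inv, hA, hA, zero_add]; group)
      rw [this, map_inv, k3, inv_one]
    · exact k3 i 2
  -- the power of `s`
  let S : d.ker := ⟨s ^ n, dn 0⟩
  have hS : ψ S = 1 := by
    have : S = L 0 ^ N 0 := Subtype.ext (by
      rw [Subgroup.coe_pow, hL, ← hpow])
    rw [this, map_pow, k4, one_pow]
  have hQ : ∀ k, A 1 k 0 ∈ triv d ψ s := by
    intro k z
    obtain ⟨i, hi⟩ : ∃ i : ℕ, (i : ℤ) = z + n * z.natAbs := by
      have hz : (0 : ℤ) ≤ z + n * z.natAbs := by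
        have h1 : (1 : ℤ) ≤ n := by exact_mod_cast hn
        have h2 : -(z.natAbs : ℤ) ≤ z := by omega
        have h3 : (0 : ℤ) ≤ z.natAbs := by omega
        nlinarith
      exact ⟨(z + n * z.natAbs).toNat, Int.toNat_of_nonneg hz⟩
    have e : MulAut.conjNormal (s ^ z) (A 1 k 0) =
        (S ^ z.natAbs)⁻¹ * ((A i k 0)⁻¹ * A (i + 1) k 0) * S ^ z.natAbs := by
      refine Subtype.ext ?_
      rw [conj_val, Subgroup.coe_mul, Subgroup.coe_mul, Subgroup.coe_mul, Subgroup.coe_inv,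
        Subgroup.coe_inv, Subgroup.coe_pow, hA, hA, hA]
      show s ^ z * (a k ^ 1 * (s ^ 1)⁻¹) * (s ^ z)⁻¹ = ((s ^ n) ^ z.natAbs)⁻¹ *
        ((a k ^ i * (s ^ i)⁻¹)⁻¹ * (a k ^ (i + 1) * (s ^ (i + 1))⁻¹)) * (s ^ n) ^ z.natAbs
      have e1 : (s ^ n) ^ z.natAbs = s ^ ((n : ℤ) * z.natAbs) := by
        rw [← pow_mul, ← zpow_natCast]
        push_cast
        rfl
      have e2 : s ^ i = s ^ z * s ^ ((n : ℤ) * z.natAbs) := by
        rw [← zpow_natCast, hi, zpow_add]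
      have e3 : s ^ z * s ^ ((n : ℤ) * z.natAbs) = s ^ ((n : ℤ) * z.natAbs) * s ^ z := by
        rw [← zpow_add, ← zpow_add, add_comm]
      have e4 : (a k ^ i * (s ^ i)⁻¹)⁻¹ * (a k ^ (i + 1) * (s ^ (i + 1))⁻¹) =
          s ^ i * (a k * s⁻¹) * (s ^ i)⁻¹ := by
        rw [pow_succ, pow_succ]
        group
      rw [e4, e1, e2, e3, pow_one, pow_one]
      group
    rw [e, map_mul, map_mul, map_mul, map_inv, map_inv, map_pow, hS, k5, k5]
    simp
  have hM : trivS d ψ s = ⊤ := by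
    refine hgen _ fun k => ⟨A 1 k 0, hQ k, 1, ?_⟩
    show a k = a k ^ 1 * (s ^ 1)⁻¹ * s ^ (1 : ℤ)
    group
  have hg : (g : G) ∈ trivS d ψ s := by rw [hM]; trivial
  obtain ⟨x, hx, m, hxm⟩ := hg
  have dx : d (x : G) = 1 := x.2
  have dg : d (g : G) = 1 := g.2
  rw [hxm, map_mul, dx, one_mul, map_zpow, da, ← ofAdd_zsmul] at dg
  have hm : ((m : ℤ) : ZMod n) = 0 := by
    have : m • (1 : ZMod n) = 0 := Multiplicative.ofAdd.injective dg
    simpa using this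
  obtain ⟨t, rfl⟩ := (ZMod.intCast_zmod_eq_zero_iff_dvd m n).mp hm |>.imp fun _ h => h
  have hgx : g = x * S ^ t := Subtype.ext (by
    rw [hxm, Subgroup.coe_mul, Subgroup.coe_zpow]
    show _ = _ * (s ^ n) ^ t
    rw [zpow_mul, zpow_natCast])
  have hx0 : ψ x = 1 := by
    have := hx 0
    have e : MulAut.conjNormal (s ^ (0 : ℤ)) x = x := by simp
    rwa [e] at this
  rw [hgx, map_mul, map_zpow, hS, hx0, one_zpow, one_mul]

end ker

end Pool.Agent.Q184.PZ
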